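import Pool.Agent.TH893.GS.Corr

set_option autoImplicit false

/-! The characteristic function of the sum of the Möbius function over a tuple of shifts. -/

namespace Pool.Agent.TH893.GS

open Finset

/-- the sum over the shifts -/
noncomputable def TT {k : ℕ} (h : Fin k → ℕ) (n : ℕ) : ℝ := ∑ i, mu (n + h i)

/-- the number of squarefree entries -/
noncomputable def SQ {k : ℕ} (h : Fin k → ℕ) (n : ℕ) : ℝ := ∑ i, mu (n + h i) ^ 2

/-- coefficients -/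
noncomputable def coef (s c : ℂ) (a : Fin 3) : ℂ := if a = 0 then 1 else if a = 1 then s else c

lemma prod_expand {k : ℕ} (s c : ℂ) (h : Fin k → ℕ) (n : ℕ) :
    ∏ i, (1 + s * (mu (n + h i) : ℂ) + c * (mu (n + h i) : ℂ) ^ 2) =
      ∑ a : Fin k → Fin 3, (∏ i, coef s c (a i)) * (mon a h n : ℂ) := by
  have h1 : ∀ i : Fin k, 1 + s * (mu (n + h i) : ℂ) + c * (mu (n + h i) : ℂ) ^ 2 =
      ∑ a : Fin 3, coef s c a * (mu (n + h i) : ℂ) ^ (a : ℕ) := by
    intro i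
    rw [Fin.sum_univ_three]
    unfold coef
    simp
  rw [prod_congr rfl (fun i _ => h1 i), prod_univ_sum]
  rw [Fintype.piFinset_univ]
  apply sum_congr rfl
  intro a _
  rw [prod_mul_distrib]
  congr 1
  unfold mon
  push_cast
  rfl

lemma coef_norm {s c : ℂ} (hs : ‖s‖ ≤ 1) (hc : ‖c‖ ≤ 2) (a : Fin 3) : ‖coef s c a‖ ≤ 2 := by
  unfold coef
  split_ifs
  · simp
  · linarith
  · exact hc

lemma diff_small {k : ℕ} {θ : ℕ → ℝ} {δ : ℝ} {N : ℕ} {h : Fin k → ℕ} (hδ : 0 ≤ δ) (hg : Good θ δ N h) {X : ℕ} (hX : X ≤ N)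
    {s c : ℂ} (hs : ‖s‖ ≤ 1) (hc : ‖c‖ ≤ 2) :
    ‖∑ n ∈ Icc 1 X, (θ n : ℂ) * (∏ i, (1 + s * (mu (n + h i) : ℂ) + c * (mu (n + h i) : ℂ) ^ 2) -
      ∏ i, (1 + c * (mu (n + h i) : ℂ) ^ 2))‖ ≤ 6 ^ k * (δ * N) := by
  have h1 : ∀ n ∈ Icc 1 X, (θ n : ℂ) * (∏ i, (1 + s * (mu (n + h i) : ℂ) + c * (mu (n + h i) : ℂ) ^ 2) -
      ∏ i, (1 + c * (mu (n + h i) : ℂ) ^ 2)) =
      ∑ a : Fin k → Fin 3, (∏ i, coef s c (a i) - ∏ i, coef 0 c (a i)) * ((θ n * mon a h n : ℝ) : ℂ) := by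
    intro n _
    have e := prod_expand 0 c h n
    simp only [zero_mul, add_zero] at e
    rw [prod_expand s c h n, e, ← sum_sub_distrib, mul_sum]
    apply sum_congr rfl
    intro a _
    push_cast
    ring
  rw [sum_congr rfl h1, sum_comm]
  have h2 : ∀ a ∈ (univ : Finset (Fin k → Fin 3)), ‖∑ n ∈ Icc 1 X, (∏ i, coef s c (a i) - ∏ i, coef 0 c (a i)) *
      ((θ n * mon a h n : ℝ) : ℂ)‖ ≤ 2 ^ k * (δ * N) := by
    intro a _
    have hN : (0 : ℝ) ≤ δ * N := by positivity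
    rw [← mul_sum, norm_mul]
    by_cases ha : ∃ i, a i = 1
    · obtain ⟨j, hj⟩ := ha
      have h3 : ∏ i, coef 0 c (a i) = 0 := by
        apply prod_eq_zero (mem_univ j)
        rw [hj]
        unfold coef
        simp
      rw [h3, sub_zero]
      apply mul_le_mul _ _ (norm_nonneg _) (by positivity)
      · rw [norm_prod]
        calc ∏ i, ‖coef s c (a i)‖ ≤ ∏ _i : Fin k, (2 : ℝ) := prod_le_prod (fun _ _ => norm_nonneg _)
              (fun i _ => coef_norm hs hc _)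
          _ = 2 ^ k := by simp
      · rw [← Complex.ofReal_sum, Complex.norm_real, Real.norm_eq_abs]
        exact hg a ⟨j, hj⟩ X hX
    · have h3 : ∏ i, coef s c (a i) = ∏ i, coef 0 c (a i) := by
        apply prod_congr rfl
        intro i _
        unfold coef
        split_ifs with h4 h5
        · rfl
        · exact absurd ⟨i, h5⟩ ha
        · rfl
      rw [h3, sub_self, norm_zero, zero_mul]
      positivity
  refine (norm_sum_le _ _).trans ((sum_le_sum h2).trans (le_of_eq ?_))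
  rw [sum_const, card_univ, nsmul_eq_mul]
  simp only [Fintype.card_pi, Fintype.card_fin, prod_const, card_univ]
  push_cast
  rw [show (6 : ℝ) = 3 * 2 by norm_num, mul_pow]
  ring

lemma exp_factor (τ : ℝ) {m : ℝ} (hm : m = 0 ∨ m = 1 ∨ m = -1) :
    1 + (Complex.I * (Real.sin τ : ℂ)) * (m : ℂ) + ((Real.cos τ - 1 : ℝ) : ℂ) * (m : ℂ) ^ 2 =
      Complex.exp (Complex.I * (τ * m : ℝ)) := by
  rcases hm with h | h | h
  · subst h
    simp
  · subst h
    rw [mul_one, mul_comm Complex.I (((τ : ℝ)) : ℂ), Complex.exp_mul_I, ← Complex.ofReal_cos, ← Complex.ofReal_sin]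
    push_cast
    ring
  · subst h
    rw [mul_comm Complex.I (((τ * (-1 : ℝ) : ℝ)) : ℂ), Complex.exp_mul_I, ← Complex.ofReal_cos, ← Complex.ofReal_sin,
      show τ * (-1 : ℝ) = -τ by ring, Real.cos_neg, Real.sin_neg]
    push_cast
    ring

lemma prod_exp {k : ℕ} (τ : ℝ) (h : Fin k → ℕ) (n : ℕ) :
    ∏ i, (1 + (Complex.I * (Real.sin τ : ℂ)) * (mu (n + h i) : ℂ) + ((Real.cos τ - 1 : ℝ) : ℂ) * (mu (n + h i) : ℂ) ^ 2) =
      Complex.exp (Complex.I * (τ * TT h n : ℝ)) := by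
  rw [prod_congr rfl (fun i _ => exp_factor τ (mu_cases (n + h i))), ← Complex.exp_sum]
  congr 1
  unfold TT
  push_cast
  rw [mul_sum, mul_sum]

lemma prod_sub_prod {k : ℕ} (f g : Fin k → ℝ) (hf : ∀ i, |f i| ≤ 1) (hg : ∀ i, |g i| ≤ 1) :
    |∏ i, f i - ∏ i, g i| ≤ ∑ i, |f i - g i| := by
  induction k with
  | zero => simp
  | succ k ih =>
    rw [Fin.prod_univ_succ, Fin.prod_univ_succ, Fin.sum_univ_succ]
    have h1 := ih (fun i => f i.succ) (fun i => g i.succ) (fun i => hf _) (fun i => hg _)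
    have h2 : |∏ i : Fin k, g i.succ| ≤ 1 := by
      rw [abs_prod]
      exact prod_le_one (fun _ _ => abs_nonneg _) (fun i _ => hg _)
    calc |f 0 * ∏ i : Fin k, f i.succ - g 0 * ∏ i : Fin k, g i.succ| =
        |f 0 * (∏ i : Fin k, f i.succ - ∏ i : Fin k, g i.succ) + (f 0 - g 0) * ∏ i : Fin k, g i.succ| := by
          congr 1; ring
      _ ≤ |f 0| * |∏ i : Fin k, f i.succ - ∏ i : Fin k, g i.succ| + |f 0 - g 0| * |∏ i : Fin k, g i.succ| := by
          refine (abs_add_le _ _).trans ?_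
          rw [abs_mul, abs_mul]
      _ ≤ 1 * (∑ i : Fin k, |f i.succ - g i.succ|) + |f 0 - g 0| * 1 := by
          apply add_le_add
          · exact mul_le_mul (hf 0) h1 (abs_nonneg _) zero_le_one
          · exact mul_le_mul_of_nonneg_left h2 (abs_nonneg _)
      _ = _ := by ring

lemma cos_exp {τ : ℝ} (hτ : |τ| ≤ 1) : |Real.cos τ - Real.exp (-(τ ^ 2 / 2))| ≤ τ ^ 4 := by
  have h1 := Real.cos_bound hτ
  have h0 : τ ^ 2 ≤ 1 := by
    rw [← sq_abs]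
    exact pow_le_one₀ (abs_nonneg _) hτ
  have h2 := Real.abs_exp_sub_one_sub_id_le (x := -(τ ^ 2 / 2)) (by
    rw [abs_neg, abs_of_nonneg (by positivity)]
    linarith)
  have e : |τ| ^ 4 = τ ^ 4 := by
    rw [show |τ| ^ 4 = (|τ| ^ 2) ^ 2 by ring, sq_abs]
    ring
  rw [e] at h1
  rw [abs_le] at h1 h2 ⊢
  have h3 : 0 ≤ τ ^ 4 := by positivity
  constructor <;> nlinarith [h1.1, h1.2, h2.1, h2.2]

lemma cos_prod {k : ℕ} {τ : ℝ} (hτ : |τ| ≤ 1) (h : Fin k → ℕ) (n : ℕ) :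
    |∏ i, (1 + (Real.cos τ - 1) * mu (n + h i) ^ 2) - Real.exp (-(τ ^ 2 / 2) * SQ h n)| ≤ k * τ ^ 4 := by
  have h1 : Real.exp (-(τ ^ 2 / 2) * SQ h n) = ∏ i, Real.exp (-(τ ^ 2 / 2) * mu (n + h i) ^ 2) := by
    rw [← Real.exp_sum]
    congr 1
    unfold SQ
    rw [mul_sum]
  rw [h1]
  have hc := Real.cos_le_one τ
  have hc' := Real.neg_one_le_cos τ
  refine (prod_sub_prod _ _ ?_ ?_).trans ?_
  · intro i
    rcases mu_cases (n + h i) with h2 | h2 | h2 <;> rw [h2, abs_le] <;> constructor <;> norm_num <;> linarith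
  · intro i
    rw [abs_of_pos (Real.exp_pos _), Real.exp_le_one_iff]
    nlinarith [sq_nonneg τ, sq_nonneg (mu (n + h i)), mul_nonneg (sq_nonneg τ) (sq_nonneg (mu (n + h i)))]
  · calc _ ≤ ∑ _i : Fin k, τ ^ 4 := by
          apply sum_le_sum
          intro i _
          rcases mu_cases (n + h i) with h2 | h2 | h2
          · rw [h2]
            norm_num
            positivity
          · rw [h2]
            have := cos_exp hτ
            norm_num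
            exact this
          · rw [h2]
            have := cos_exp hτ
            norm_num
            exact this
      _ = _ := by simp

lemma exp_lip {a b : ℝ} (ha : 0 ≤ a) (hb : 0 ≤ b) : |Real.exp (-a) - Real.exp (-b)| ≤ |a - b| := by
  wlog hab : a ≤ b with H
  · have := H hb ha (by linarith)
    rw [abs_sub_comm, abs_sub_comm a b]
    exact this
  rw [abs_of_nonneg (by rw [sub_nonneg]; exact Real.exp_le_exp.2 (by linarith)), abs_of_nonpos (by linarith)]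
  have h1 : Real.exp (-b) = Real.exp (-a) * Real.exp (-(b - a)) := by
    rw [← Real.exp_add]; congr 1; ring
  have h2 : 1 - (b - a) ≤ Real.exp (-(b - a)) := by
    have := Real.add_one_le_exp (-(b - a))
    linarith
  have h3 : Real.exp (-a) ≤ 1 := by rw [Real.exp_le_one_iff]; linarith
  have h4 : 0 < Real.exp (-a) := Real.exp_pos _
  rw [h1]
  nlinarith

/-- the density of the squarefree integers -/
noncomputable def c0 : ℝ := 6 / Real.pi ^ 2

lemma c0_pos : 0 < c0 := by unfold c0; positivity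

lemma c0_lt : c0 < 1 := by
  unfold c0
  have h1 : (3 : ℝ) < Real.pi := Real.pi_gt_three
  rw [div_lt_one (by positivity)]
  nlinarith

theorem char_main {k : ℕ} (hk : 1 ≤ k) {θ : ℕ → ℝ} (hθ : ∀ n, 0 ≤ θ n) {δ : ℝ} (hδ : 0 ≤ δ) {N : ℕ}
    {h : Fin k → ℕ} (hg : Good θ δ N h) {Y X : ℕ} (hYX : Y ≤ X) (hX : X ≤ N) {t : ℝ} (ht : t ^ 2 ≤ c0 * k) :
    ‖∑ n ∈ Ioc Y X, (θ n : ℂ) * (Complex.exp (Complex.I * (t * (TT h n / √(c0 * k)) : ℝ)) -
      ((Real.exp (-(t ^ 2 / 2)) : ℝ) : ℂ))‖ ≤ 2 * (6 ^ k * (δ * N)) +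
      ∑ n ∈ Ioc Y X, θ n * (t ^ 4 / (c0 ^ 2 * k) + t ^ 2 / 2 * |SQ h n / (c0 * k) - 1|) := by
  have hk0 : (0 : ℝ) < k := by exact_mod_cast hk
  have hc := c0_pos
  have hck : 0 < c0 * k := by positivity
  have hsq : √(c0 * k) ^ 2 = c0 * k := Real.sq_sqrt hck.le
  have hs0 : 0 < √(c0 * k) := Real.sqrt_pos.2 hck
  obtain ⟨τ, hτ⟩ : ∃ τ : ℝ, τ = t / √(c0 * k) := ⟨_, rfl⟩
  have hτ2 : τ ^ 2 = t ^ 2 / (c0 * k) := by rw [hτ, div_pow, hsq]
  have hτ1 : |τ| ≤ 1 := by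
    rw [← sq_le_one_iff_abs_le_one, hτ2, div_le_one hck]
    exact ht
  have hs : ‖Complex.I * (Real.sin τ : ℂ)‖ ≤ 1 := by
    rw [norm_mul, Complex.norm_I, one_mul, Complex.norm_real, Real.norm_eq_abs]
    exact Real.abs_sin_le_one τ
  have hcc : ‖((Real.cos τ - 1 : ℝ) : ℂ)‖ ≤ 2 := by
    rw [Complex.norm_real, Real.norm_eq_abs, abs_le]
    have := Real.cos_le_one τ
    have := Real.neg_one_le_cos τ
    constructor <;> linarith
  have d1 := diff_small hδ hg hX hs hcc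
  have d2 := diff_small hδ hg (hYX.trans hX) hs hcc
  have hsplit : ∀ f : ℕ → ℂ, ∑ n ∈ Ioc Y X, f n = ∑ n ∈ Icc 1 X, f n - ∑ n ∈ Icc 1 Y, f n := by
    intro f
    have e1 : ∀ z : ℕ, Icc 1 z = Ioc 0 z := fun z => by ext; simp [Nat.succ_le_iff]
    rw [e1, e1, eq_sub_iff_add_eq, add_comm]
    exact sum_Ioc_consecutive f (Nat.zero_le _) hYX
  have d3 : ‖∑ n ∈ Ioc Y X, (θ n : ℂ) * (Complex.exp (Complex.I * (τ * TT h n : ℝ)) -
      ∏ i, (1 + ((Real.cos τ - 1 : ℝ) : ℂ) * (mu (n + h i) : ℂ) ^ 2))‖ ≤ 2 * (6 ^ k * (δ * N)) := by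
    simp only [← prod_exp]
    rw [hsplit]
    refine (norm_sub_le _ _).trans ?_
    linarith
  have d4 : ∀ n ∈ Ioc Y X, ‖(θ n : ℂ) * (∏ i, (1 + ((Real.cos τ - 1 : ℝ) : ℂ) * (mu (n + h i) : ℂ) ^ 2) -
      ((Real.exp (-(t ^ 2 / 2)) : ℝ) : ℂ))‖ ≤ θ n * (t ^ 4 / (c0 ^ 2 * k) + t ^ 2 / 2 * |SQ h n / (c0 * k) - 1|) := by
    intro n _
    rw [norm_mul, Complex.norm_real, Real.norm_eq_abs, abs_of_nonneg (hθ n)]
    apply mul_le_mul_of_nonneg_left _ (hθ n)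
    have e1 : (∏ i, (1 + ((Real.cos τ - 1 : ℝ) : ℂ) * (mu (n + h i) : ℂ) ^ 2) - ((Real.exp (-(t ^ 2 / 2)) : ℝ) : ℂ)) =
        ((∏ i, (1 + (Real.cos τ - 1) * mu (n + h i) ^ 2) - Real.exp (-(t ^ 2 / 2)) : ℝ) : ℂ) := by
      push_cast
      rfl
    rw [e1, Complex.norm_real, Real.norm_eq_abs]
    have e2 := cos_prod hτ1 h n
    have e3 : (k : ℝ) * τ ^ 4 = t ^ 4 / (c0 ^ 2 * k) := by
      rw [show τ ^ 4 = (τ ^ 2) ^ 2 by ring, hτ2]
      field_simp
    have hSQ : 0 ≤ SQ h n := by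
      unfold SQ
      exact sum_nonneg fun _ _ => sq_nonneg _
    have e4 := exp_lip (a := τ ^ 2 / 2 * SQ h n) (b := t ^ 2 / 2) (by positivity) (by positivity)
    have e5 : τ ^ 2 / 2 * SQ h n - t ^ 2 / 2 = t ^ 2 / 2 * (SQ h n / (c0 * k) - 1) := by
      rw [hτ2]
      field_simp
    rw [e5, abs_mul, abs_of_nonneg (by positivity : (0 : ℝ) ≤ t ^ 2 / 2)] at e4
    rw [e3] at e2
    rw [neg_mul] at e2
    calc |∏ i, (1 + (Real.cos τ - 1) * mu (n + h i) ^ 2) - Real.exp (-(t ^ 2 / 2))| =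
        |(∏ i, (1 + (Real.cos τ - 1) * mu (n + h i) ^ 2) - Real.exp (-(τ ^ 2 / 2 * SQ h n))) +
          (Real.exp (-(τ ^ 2 / 2 * SQ h n)) - Real.exp (-(t ^ 2 / 2)))| := by congr 1; ring
      _ ≤ _ := (abs_add_le _ _).trans (add_le_add e2 e4)
  have d5 : ∀ n ∈ Ioc Y X, (θ n : ℂ) * (Complex.exp (Complex.I * (t * (TT h n / √(c0 * k)) : ℝ)) -
      ((Real.exp (-(t ^ 2 / 2)) : ℝ) : ℂ)) = (θ n : ℂ) * (Complex.exp (Complex.I * (τ * TT h n : ℝ)) -
      ∏ i, (1 + ((Real.cos τ - 1 : ℝ) : ℂ) * (mu (n + h i) : ℂ) ^ 2)) +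
      (θ n : ℂ) * (∏ i, (1 + ((Real.cos τ - 1 : ℝ) : ℂ) * (mu (n + h i) : ℂ) ^ 2) -
      ((Real.exp (-(t ^ 2 / 2)) : ℝ) : ℂ)) := by
    intro n _
    have e : t * (TT h n / √(c0 * k)) = τ * TT h n := by rw [hτ]; ring
    rw [e]
    ring
  rw [sum_congr rfl d5, sum_add_distrib]
  exact (norm_add_le _ _).trans (add_le_add d3 ((norm_sum_le _ _).trans (sum_le_sum d4)))

end Pool.Agent.TH893.GS
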