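import Pool.Agent.TH823.MRS.Circ5

set_option autoImplicit false

/-! Products of Möbius values at almost all tuples of shifts: arbitrary weights. -/

namespace Pool.Agent.TH893.GS

open Finset
open Pool.Agent.TH823.MRS (pol nu nu_eq nu_mono Sm mu_E mu_le)
open Pool.Agent.H373R2.T7 (exI)

/-- the Möbius function, real valued -/
noncomputable def mu (n : ℕ) : ℝ := ((ArithmeticFunction.moebius n : ℤ) : ℝ)

lemma mu_abs (n : ℕ) : |mu n| ≤ 1 := by
  have := ArithmeticFunction.abs_moebius_le_one (n := n)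
  unfold mu
  exact_mod_cast this

lemma mu_cases (n : ℕ) : mu n = 0 ∨ mu n = 1 ∨ mu n = -1 := by
  unfold mu
  rcases ArithmeticFunction.moebius_eq_or n with h | h | h <;> rw [h] <;> simp

/-- the tuples of shifts -/
def tup (k H : ℕ) : Finset (Fin k → ℕ) := Fintype.piFinset (fun _ => Icc 1 H)

lemma card_tup (k H : ℕ) : ((tup k H).card : ℝ) = (H : ℝ) ^ k := by
  unfold tup
  rw [Fintype.card_piFinset]
  simp

lemma update_mem {k H : ℕ} {h : Fin k → ℕ} (hh : h ∈ tup k H) (j : Fin k) {v : ℕ} (hv : v ∈ Icc 1 H) :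
    Function.update h j v ∈ tup k H := by
  unfold tup at hh ⊢
  rw [Fintype.mem_piFinset] at hh ⊢
  intro i
  by_cases hi : i = j
  · subst hi
    rw [Function.update_self]
    exact hv
  · rw [Function.update_of_ne hi]
    exact hh i

/-- averaging over one coordinate -/
lemma avg_coord {k H : ℕ} (j : Fin k) (F : (Fin k → ℕ) → ℝ) :
    ∑ h ∈ tup k H, ∑ v ∈ Icc 1 H, F (Function.update h j v) = H * ∑ h ∈ tup k H, F h := by
  have h1 : ∑ h ∈ tup k H, ∑ v ∈ Icc 1 H, F (Function.update h j v) =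
      ∑ x ∈ tup k H ×ˢ Icc 1 H, F (Function.update x.1 j x.2) := by
    rw [sum_product]
  have h2 : ∑ x ∈ tup k H ×ˢ Icc 1 H, F (Function.update x.1 j x.2) = ∑ x ∈ tup k H ×ˢ Icc 1 H, F x.1 := by
    refine sum_nbij' (fun x => (Function.update x.1 j x.2, x.1 j)) (fun x => (Function.update x.1 j x.2, x.1 j))
      ?_ ?_ ?_ ?_ ?_
    · intro x hx
      rw [mem_product] at hx ⊢
      refine ⟨update_mem hx.1 j hx.2, ?_⟩
      have := hx.1
      unfold tup at this
      rw [Fintype.mem_piFinset] at this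
      exact this j
    · intro x hx
      rw [mem_product] at hx ⊢
      refine ⟨update_mem hx.1 j hx.2, ?_⟩
      have := hx.1
      unfold tup at this
      rw [Fintype.mem_piFinset] at this
      exact this j
    · intro x _
      simp
    · intro x _
      simp
    · intro x _
      rfl
  rw [h1, h2, sum_product]
  simp only [sum_const, Nat.card_Icc, Nat.add_sub_cancel, nsmul_eq_mul]
  rw [mul_sum]

/-- few bad values of one coordinate give few bad tuples -/
lemma few_of_coord {k H : ℕ} (hH : 1 ≤ H) (j : Fin k) (P : (Fin k → ℕ) → Prop) [DecidablePred P] {δ : ℝ}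
    (hP : ∀ h ∈ tup k H, (((Icc 1 H).filter (fun v => P (Function.update h j v))).card : ℝ) ≤ δ * H) :
    (((tup k H).filter P).card : ℝ) ≤ δ * (H : ℝ) ^ k := by
  have h1 := avg_coord (H := H) j (fun h => if P h then (1 : ℝ) else 0)
  have h2 : ∑ h ∈ tup k H, ∑ v ∈ Icc 1 H, (if P (Function.update h j v) then (1 : ℝ) else 0) ≤
      (H : ℝ) ^ k * (δ * H) := by
    rw [← card_tup, ← nsmul_eq_mul]
    refine sum_le_card_nsmul _ _ _ (fun h hh => ?_)
    rw [← sum_filter, sum_const, nsmul_eq_mul, mul_one]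
    exact hP h hh
  have h3 : ∑ h ∈ tup k H, (if P h then (1 : ℝ) else 0) = (((tup k H).filter P).card : ℝ) := by
    rw [← sum_filter, sum_const, nsmul_eq_mul, mul_one]
  rw [h1, h3] at h2
  have hH0 : (0 : ℝ) < H := by exact_mod_cast hH
  have h4 : (H : ℝ) * (((tup k H).filter P).card : ℝ) ≤ H * (δ * (H : ℝ) ^ k) := by
    calc _ ≤ _ := h2
      _ = _ := by ring
  exact le_of_mul_le_mul_left h4 hH0

/-- a monomial in the values of the Möbius function -/
noncomputable def mon {k : ℕ} (a : Fin k → Fin 3) (h : Fin k → ℕ) (n : ℕ) : ℝ := ∏ i, mu (n + h i) ^ (a i : ℕ)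

lemma mon_abs {k : ℕ} (a : Fin k → Fin 3) (h : Fin k → ℕ) (n : ℕ) : |mon a h n| ≤ 1 := by
  unfold mon
  rw [abs_prod]
  apply prod_le_one
  · intro i _
    exact abs_nonneg _
  · intro i _
    rw [abs_pow]
    exact pow_le_one₀ (abs_nonneg _) (mu_abs _)

/-- all the monomials with a factor of odd order are small on average -/
def Good {k : ℕ} (θ : ℕ → ℝ) (δ : ℝ) (N : ℕ) (h : Fin k → ℕ) : Prop :=
  ∀ a : Fin k → Fin 3, (∃ i, a i = 1) → ∀ X ≤ N, |∑ n ∈ Icc 1 X, θ n * mon a h n| ≤ δ * N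

theorem few_bad (k : ℕ) {δ : ℝ} (hδ : 0 < δ) : ∃ H₀ : ℕ, ∀ N H : ℕ, H₀ ≤ H → H ≤ N →
    ∀ θ : ℕ → ℝ, (∀ n, |θ n| ≤ 1) → ∀ [DecidablePred fun h : Fin k → ℕ => ¬ Good θ δ N h],
    (((tup k H).filter (fun h => ¬ Good θ δ N h)).card : ℝ) ≤ 3 ^ k * (δ * (H : ℝ) ^ k) := by
  classical
  obtain ⟨H₁, N₁, h1⟩ := pol (fun n => ((ArithmeticFunction.moebius n : ℤ) : ℂ)) mu_le mu_E 1 1 δ hδ
    (Polynomial.X : Polynomial ℤ) (by simp) 1
  refine ⟨H₁ + N₁ + 1, fun N H hH hHN θ hθ _ => ?_⟩
  have hsub : (tup k H).filter (fun h => ¬ Good θ δ N h) ⊆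
      ((Finset.univ : Finset (Fin k → Fin 3)).filter (fun a => ∃ i, a i = 1)).biUnion (fun a =>
        (tup k H).filter (fun h => ¬ ∀ X ≤ N, |∑ n ∈ Icc 1 X, θ n * mon a h n| ≤ δ * N)) := by
    intro h hh
    rw [mem_filter] at hh
    obtain ⟨hh1, hh2⟩ := hh
    unfold Good at hh2
    push Not at hh2
    obtain ⟨a, ha, X, hX, h3⟩ := hh2
    rw [mem_biUnion]
    refine ⟨a, by rw [mem_filter]; exact ⟨mem_univ _, ha⟩, ?_⟩
    rw [mem_filter]
    refine ⟨hh1, ?_⟩
    push Not
    exact ⟨X, hX, h3⟩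
  have hone : ∀ a ∈ (Finset.univ : Finset (Fin k → Fin 3)).filter (fun a => ∃ i, a i = 1),
      (((tup k H).filter (fun h => ¬ ∀ X ≤ N, |∑ n ∈ Icc 1 X, θ n * mon a h n| ≤ δ * N)).card : ℝ) ≤
        δ * (H : ℝ) ^ k := by
    intro a ha
    rw [mem_filter] at ha
    obtain ⟨-, j, hj⟩ := ha
    refine few_of_coord (by omega) j _ (fun h hh => ?_)
    have h4 := h1 N H (by omega) (by omega) hHN H (by simp) (by simp) (fun _ => 1) (fun _ => 0)
      (fun _ n => ((θ n * ∏ i ∈ univ.erase j, mu (n + h i) ^ (a i : ℕ) : ℝ) : ℂ)) (by simp) (by simp) (by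
        intro _ n
        rw [Complex.norm_real, Real.norm_eq_abs, abs_mul, abs_prod]
        refine mul_le_one₀ (hθ n) (prod_nonneg fun _ _ => abs_nonneg _) ?_
        apply prod_le_one
        · intro i _
          exact abs_nonneg _
        · intro i _
          rw [abs_pow]
          exact pow_le_one₀ (abs_nonneg _) (mu_abs _))
    rw [nu_eq] at h4
    refine le_trans ?_ h4
    norm_cast
    apply card_le_card
    intro v hv
    rw [mem_filter] at hv ⊢
    refine ⟨hv.1, fun hcon => hv.2 (fun X hX => ?_)⟩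
    have h5 := hcon 0 X (by simpa using hX)
    have h6 : ∀ n ∈ Icc 1 X, θ n * mon a (Function.update h j v) n =
        (θ n * ∏ i ∈ univ.erase j, mu (n + h i) ^ (a i : ℕ)) * mu (n + v) := by
      intro n _
      unfold mon
      rw [← mul_prod_erase _ _ (mem_univ j)]
      have e1 : ∏ i ∈ univ.erase j, mu (n + Function.update h j v i) ^ (a i : ℕ) =
          ∏ i ∈ univ.erase j, mu (n + h i) ^ (a i : ℕ) := by
        apply prod_congr rfl
        intro i hi
        rw [Function.update_of_ne (ne_of_mem_erase hi)]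
      rw [e1, Function.update_self, hj]
      norm_num
      ring
    rw [sum_congr rfl h6, ← Real.norm_eq_abs, ← Complex.norm_real]
    refine le_trans (le_of_eq ?_) h5
    congr 1
    rw [Complex.ofReal_sum]
    apply sum_congr rfl
    intro n hn
    rw [mem_Icc] at hn
    rw [Complex.ofReal_mul]
    congr 1
    unfold exI mu
    have e2 : (((1 : ℕ) : ℤ) * (n : ℤ) + 0 + Polynomial.eval (v : ℤ) (Polynomial.X : Polynomial ℤ)) = ((n + v : ℕ) : ℤ) := by
      rw [Polynomial.eval_X]; push_cast; ring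
    rw [e2, if_pos (by push_cast; omega), Int.toNat_natCast]
    push_cast
    rfl
  calc (((tup k H).filter (fun h => ¬ Good θ δ N h)).card : ℝ) ≤
      ((((Finset.univ : Finset (Fin k → Fin 3)).filter (fun a => ∃ i, a i = 1)).biUnion (fun a =>
        (tup k H).filter (fun h => ¬ ∀ X ≤ N, |∑ n ∈ Icc 1 X, θ n * mon a h n| ≤ δ * N))).card : ℝ) := by
        exact_mod_cast card_le_card hsub
    _ ≤ ∑ a ∈ (Finset.univ : Finset (Fin k → Fin 3)).filter (fun a => ∃ i, a i = 1),
        (((tup k H).filter (fun h => ¬ ∀ X ≤ N, |∑ n ∈ Icc 1 X, θ n * mon a h n| ≤ δ * N)).card : ℝ) := by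
        exact_mod_cast card_biUnion_le
    _ ≤ ∑ a ∈ (Finset.univ : Finset (Fin k → Fin 3)).filter (fun a => ∃ i, a i = 1), δ * (H : ℝ) ^ k :=
        sum_le_sum hone
    _ ≤ ∑ a : Fin k → Fin 3, δ * (H : ℝ) ^ k := by
        apply sum_le_sum_of_subset_of_nonneg (filter_subset _ _)
        intro _ _ _
        positivity
    _ = _ := by
        rw [sum_const, card_univ, nsmul_eq_mul]
        simp

end Pool.Agent.TH893.GS
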