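import Mathlib

set_option autoImplicit false

/-! A quantitative form (by compactness) of the theorem of Lévy for the normal law, with uniform convergence of the
distribution functions. -/

namespace Pool.Agent.TH893.GS

open MeasureTheory ProbabilityTheory Filter Topology Set

/-- the normal distribution function -/
noncomputable def Phi (x : ℝ) : ℝ := cdf (gaussianReal 0 1) x

lemma Phi_mono : Monotone Phi := monotone_cdf _

lemma Phi_nonneg (x : ℝ) : 0 ≤ Phi x := cdf_nonneg _ _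

lemma Phi_le_one (x : ℝ) : Phi x ≤ 1 := cdf_le_one _ _

lemma Phi_cont : Continuous Phi := by
  rw [continuous_iff_continuousAt]
  intro x
  have h1 : Phi = (cdf (gaussianReal 0 1) : ℝ → ℝ) := rfl
  rw [h1, (cdf (gaussianReal 0 1)).mono.continuousAt_iff_leftLim_eq_rightLim, StieltjesFunction.rightLim_eq]
  have h2 := (cdf (gaussianReal 0 1)).measure_singleton x
  rw [measure_cdf] at h2
  have h3 : gaussianReal 0 1 {x} = 0 := by
    haveI := nullSingletonClass_gaussianReal (μ := 0) (v := 1) (by norm_num)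
    exact measure_singleton x
  rw [h3] at h2
  have h4 := ENNReal.ofReal_eq_zero.1 h2.symm
  have h5 := (cdf (gaussianReal 0 1)).mono.leftLim_le (le_refl x)
  linarith

lemma Phi_surj {c : ℝ} (h0 : 0 < c) (h1 : c < 1) : ∃ y, Phi y = c := by
  have h2 : ∃ a, Phi a ≤ c := by
    have := (tendsto_cdf_atBot (gaussianReal 0 1)).eventually (gt_mem_nhds h0)
    obtain ⟨a, ha⟩ := this.exists
    exact ⟨a, ha.le⟩
  have h3 : ∃ b, c ≤ Phi b := by
    have := (tendsto_cdf_atTop (gaussianReal 0 1)).eventually (lt_mem_nhds h1)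
    obtain ⟨b, hb⟩ := this.exists
    exact ⟨b, hb.le⟩
  exact mem_range_of_exists_le_of_exists_ge Phi_cont h2 h3

lemma Phi_eq (x : ℝ) : Phi x = (√(2 * Real.pi))⁻¹ * ∫ u in Iic x, Real.exp (-u ^ 2 / 2) := by
  unfold Phi
  rw [cdf_eq_real, Measure.real, gaussianReal_apply_eq_integral 0 (by norm_num) (Iic x), ENNReal.toReal_ofReal]
  · rw [← integral_const_mul]
    congr 1
    ext u
    rw [gaussianPDFReal]
    simp
  · exact setIntegral_nonneg measurableSet_Iic fun u _ => gaussianPDFReal_nonneg 0 1 u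

/-- closeness at finitely many quantiles gives uniform closeness -/
lemma uniform_of_grid {K : ℕ} (hK : 1 ≤ K) (y : ℕ → ℝ) (hy : ∀ l, 1 ≤ l → l < K → Phi (y l) = (l : ℝ) / K) {η : ℝ}
    (hη : 0 ≤ η) (F : ℝ → ℝ) (hF : Monotone F) (hF0 : ∀ x, 0 ≤ F x) (hF1 : ∀ x, F x ≤ 1)
    (h : ∀ l, 1 ≤ l → l < K → |F (y l) - Phi (y l)| ≤ η) (x : ℝ) : |F x - Phi x| ≤ 2 / K + η := by
  have hK0 : (0 : ℝ) < K := by exact_mod_cast hK
  obtain ⟨l, hl⟩ : ∃ l : ℕ, l = ⌊(K : ℝ) * Phi x⌋₊ := ⟨_, rfl⟩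
  have hl1 : (l : ℝ) ≤ K * Phi x := by
    rw [hl]
    exact Nat.floor_le (mul_nonneg hK0.le (Phi_nonneg x))
  have hl2 : (K : ℝ) * Phi x < l + 1 := by
    rw [hl]
    exact Nat.lt_floor_add_one _
  have hP1 : Phi x < (l + 1) / K := by
    rw [lt_div_iff₀ hK0]
    linarith
  have hP0 : (l : ℝ) / K ≤ Phi x := by
    rw [div_le_iff₀ hK0]
    linarith
  have e1 : ((l : ℝ) + 1) / K = l / K + 1 / K := by ring
  have hk1 : (0 : ℝ) < 1 / K := by positivity
  have e2 : (2 : ℝ) / K = 1 / K + 1 / K := by ring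
  rw [abs_le]
  constructor
  · -- lower bound
    by_cases h2 : 2 ≤ l
    · by_cases h3 : l - 1 < K
      · have h4 := hy (l - 1) (by omega) h3
        have h5 := h (l - 1) (by omega) h3
        have h6 : ((l - 1 : ℕ) : ℝ) = l - 1 := by
          rw [Nat.cast_sub (by omega)]
          norm_num
        rw [h6] at h4
        have e3 : ((l : ℝ) - 1) / K = l / K - 1 / K := by ring
        have h7 : y (l - 1) ≤ x := by
          by_contra hcon
          push Not at hcon
          have := Phi_mono hcon.le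
          rw [h4, e3] at this
          linarith
        have h8 := hF h7
        rw [abs_le] at h5
        rw [h4, e3] at h5
        linarith [h5.1]
      · have := Phi_le_one x
        have h9 : (K : ℝ) + 1 ≤ l := by exact_mod_cast (by omega : K + 1 ≤ l)
        have : (K : ℝ) * Phi x ≤ K * 1 := mul_le_mul_of_nonneg_left this hK0.le
        linarith
    · have h3 : (l : ℝ) ≤ 1 := by exact_mod_cast (by omega : l ≤ 1)
      have h4 : (l : ℝ) / K ≤ 1 / K := div_le_div_of_nonneg_right h3 hK0.le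
      have := hF0 x
      linarith
  · -- upper bound
    by_cases h3 : l + 1 < K
    · have h4 := hy (l + 1) (by omega) h3
      have h5 := h (l + 1) (by omega) h3
      push_cast at h4
      have h7 : x ≤ y (l + 1) := by
        by_contra hcon
        push Not at hcon
        have := Phi_mono hcon.le
        rw [h4] at this
        linarith
      have h8 := hF h7
      rw [abs_le] at h5
      rw [h4] at h5
      linarith [h5.2]
    · have h4 : (K : ℝ) ≤ l + 1 := by exact_mod_cast (by omega : K ≤ l + 1)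
      have h5 : 1 ≤ ((l : ℝ) + 1) / K := by
        rw [le_div_iff₀ hK0]
        linarith
      have := hF1 x
      linarith

theorem levy {ε : ℝ} (hε : 0 < ε) : ∃ T : ℝ, 1 ≤ T ∧ ∀ ν : Measure ℝ, IsProbabilityMeasure ν →
    (∀ t : ℝ, |t| ≤ T → ‖charFun ν t - ((Real.exp (-(t ^ 2 / 2)) : ℝ) : ℂ)‖ ≤ 1 / T) →
      ∀ x, |ν.real (Iic x) - Phi x| ≤ ε := by
  by_contra hcon
  push Not at hcon
  have h1 : ∀ j : ℕ, ∃ ν : ProbabilityMeasure ℝ, (∀ t : ℝ, |t| ≤ (j : ℝ) + 1 →
      ‖charFun (ν : Measure ℝ) t - ((Real.exp (-(t ^ 2 / 2)) : ℝ) : ℂ)‖ ≤ 1 / ((j : ℝ) + 1)) ∧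
      ∃ x, ε < |(ν : Measure ℝ).real (Iic x) - Phi x| := by
    intro j
    obtain ⟨ν, hν, h2, x, h3⟩ := hcon ((j : ℝ) + 1) (by
      have : (0 : ℝ) ≤ j := Nat.cast_nonneg j
      linarith)
    exact ⟨⟨ν, hν⟩, h2, x, h3⟩
  choose ν hν x hx using h1
  obtain ⟨G, hG⟩ : ∃ G : ProbabilityMeasure ℝ, (G : Measure ℝ) = gaussianReal 0 1 :=
    ⟨⟨gaussianReal 0 1, inferInstance⟩, rfl⟩
  have h2 : Tendsto ν atTop (𝓝 G) := by
    rw [ProbabilityMeasure.tendsto_iff_tendsto_charFun]
    intro t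
    have h3 : charFun (G : Measure ℝ) t =
        ((Real.exp (-(t ^ 2 / 2)) : ℝ) : ℂ) := by
      rw [hG, charFun_gaussianReal]
      push_cast
      congr 1
      ring
    rw [h3, tendsto_iff_norm_sub_tendsto_zero]
    have h4 : Tendsto (fun j : ℕ => 1 / ((j : ℝ) + 1)) atTop (𝓝 0) := tendsto_one_div_add_atTop_nhds_zero_nat
    refine squeeze_zero' (Eventually.of_forall fun _ => norm_nonneg _) ?_ h4
    filter_upwards [eventually_ge_atTop ⌈|t|⌉₊] with j hj
    apply hν j t
    have : |t| ≤ ⌈|t|⌉₊ := Nat.le_ceil _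
    have h5 : ((⌈|t|⌉₊ : ℕ) : ℝ) ≤ j := by exact_mod_cast hj
    linarith
  obtain ⟨K, hK⟩ : ∃ K : ℕ, K = ⌈4 / ε⌉₊ + 1 := ⟨_, rfl⟩
  have hK0 : (0 : ℝ) < K := by rw [hK]; positivity
  have hK4 : 4 / ε < K := by
    have : 4 / ε ≤ ⌈4 / ε⌉₊ := Nat.le_ceil _
    rw [hK]
    push_cast
    linarith
  have hK2 : 2 / (K : ℝ) ≤ ε / 2 := by
    rw [div_le_iff₀ hK0]
    rw [div_lt_iff₀ hε] at hK4
    linarith
  have h6 : ∀ l : ℕ, ∃ y, 1 ≤ l → l < K → Phi y = (l : ℝ) / K := by
    intro l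
    by_cases hl : 1 ≤ l ∧ l < K
    · obtain ⟨y, hy⟩ := Phi_surj (c := (l : ℝ) / K) (by
        have : (0 : ℝ) < l := by exact_mod_cast (by omega : 0 < l)
        positivity) (by
        rw [div_lt_one hK0]
        exact_mod_cast hl.2)
      exact ⟨y, fun _ _ => hy⟩
    · exact ⟨0, fun h1 h2 => absurd ⟨h1, h2⟩ hl⟩
  choose y hy using h6
  have h7 : ∀ l : ℕ, ∀ᶠ j in atTop, |(ν j : Measure ℝ).real (Iic (y l)) - Phi (y l)| ≤ ε / 4 := by
    intro l
    have h8 : (gaussianReal 0 1) (frontier (Iic (y l))) = 0 := by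
      rw [frontier_Iic]
      haveI := nullSingletonClass_gaussianReal (μ := 0) (v := 1) (by norm_num)
      exact measure_singleton _
    have h9 := ProbabilityMeasure.tendsto_measure_of_null_frontier_of_tendsto' h2 (E := Iic (y l)) (by
      rw [hG]; exact h8)
    have h10 : Tendsto (fun j => (ν j : Measure ℝ).real (Iic (y l))) atTop (𝓝 (Phi (y l))) := by
      unfold Phi
      rw [cdf_eq_real, ← hG]
      exact (ENNReal.tendsto_toReal (measure_ne_top _ _)).comp h9
    rw [Metric.tendsto_atTop] at h10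
    obtain ⟨J, hJ⟩ := h10 (ε / 4) (by positivity)
    filter_upwards [eventually_ge_atTop J] with j hj
    have := hJ j hj
    rw [Real.dist_eq] at this
    exact this.le
  have h11 : ∀ᶠ j in atTop, ∀ l ∈ Finset.range K, |(ν j : Measure ℝ).real (Iic (y l)) - Phi (y l)| ≤ ε / 4 := by
    rw [Filter.eventually_all_finset]
    intro l _
    exact h7 l
  obtain ⟨j, hj⟩ := h11.exists
  have h12 := uniform_of_grid (by omega : 1 ≤ K) y (fun l h1 h2 => hy l h1 h2) (η := ε / 4) (by positivity)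
    (fun z => (ν j : Measure ℝ).real (Iic z)) (by
      intro a b hab
      exact measureReal_mono (Iic_subset_Iic.2 hab))
    (fun z => measureReal_nonneg) (fun z => measureReal_le_one) (fun l _ h2 => hj l (Finset.mem_range.2 h2)) (x j)
  have h13 := hx j
  linarith

end Pool.Agent.TH893.GS
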