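import Pool.Agent.TH893.GS.Sqf
import Pool.Agent.TH893.GS.Levy

set_option autoImplicit false

/-! Assembly. -/

namespace Pool.Agent.TH893.GS

open Finset MeasureTheory

/-- the empirical measure -/
noncomputable def emp (F : Finset ℕ) (Z : ℕ → ℝ) : Measure ℝ := ((F.card : ENNReal))⁻¹ • ∑ n ∈ F, Measure.dirac (Z n)

lemma emp_prob {F : Finset ℕ} (hF : F.Nonempty) (Z : ℕ → ℝ) : IsProbabilityMeasure (emp F Z) := by
  constructor
  unfold emp
  have h1 : (F.card : ENNReal) ≠ 0 := by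
    rw [Ne, Nat.cast_eq_zero]
    exact hF.card_pos.ne'
  rw [Measure.smul_apply, Measure.finset_sum_apply]
  simp only [measure_univ, sum_const, nsmul_eq_mul, mul_one, smul_eq_mul]
  exact ENNReal.inv_mul_cancel h1 (ENNReal.natCast_ne_top _)

lemma emp_real (F : Finset ℕ) (Z : ℕ → ℝ) (x : ℝ) :
    (emp F Z).real (Set.Iic x) = ((F.filter (fun n => Z n ≤ x)).card : ℝ) / F.card := by
  unfold emp
  rw [Measure.real, Measure.smul_apply, Measure.finset_sum_apply, smul_eq_mul, ENNReal.toReal_mul, ENNReal.toReal_inv,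
    ENNReal.toReal_natCast]
  have h1 : ∑ n ∈ F, (Measure.dirac (Z n)) (Set.Iic x) = ((F.filter (fun n => Z n ≤ x)).card : ENNReal) := by
    rw [card_eq_sum_ones, Nat.cast_sum, sum_filter]
    apply sum_congr rfl
    intro n _
    rw [Measure.dirac_apply' _ measurableSet_Iic, Set.indicator_apply]
    simp only [Set.mem_Iic, Pi.one_apply, Nat.cast_one]
  rw [h1, ENNReal.toReal_natCast]
  ring

lemma emp_char (F : Finset ℕ) (Z : ℕ → ℝ) (t : ℝ) :
    charFun (emp F Z) t = ((F.card : ℝ) : ℂ)⁻¹ * ∑ n ∈ F, Complex.exp (Complex.I * (t * Z n : ℝ)) := by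
  unfold emp
  rw [charFun_apply_real, integral_smul_measure, integral_finset_sum_measure]
  · rw [ENNReal.toReal_inv, ENNReal.toReal_natCast, Complex.real_smul]
    congr 1
    · push_cast; rfl
    · apply sum_congr rfl
      intro n _
      rw [integral_dirac]
      congr 1
      push_cast
      ring
  · intro n _
    apply integrable_dirac
    simp

/-- the values of the sum at most `x` standard deviations -/
theorem main {ε : ℝ} (hε : 0 < ε) : ∃ k₀ : ℕ, ∀ k : ℕ, k₀ ≤ k → ∃ H₀ : ℕ, ∀ N H : ℕ, H₀ ≤ H → H ≤ N →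
    ∀ (E : Set ℕ) [DecidablePred (· ∈ E)] [DecidablePred fun h : Fin k → ℕ => ¬ ∀ Y X : ℕ, Y ≤ X → X ≤ N →
        ε * N ≤ ((Ioc Y X).filter (· ∈ E)).card → ∀ x : ℝ,
        |(((((Ioc Y X).filter (· ∈ E)).filter (fun n => TT h n / √(c0 * k) ≤ x)).card : ℝ) /
          ((Ioc Y X).filter (· ∈ E)).card) - Phi x| ≤ ε],
    (((tup k H).filter (fun h => ¬ ∀ Y X : ℕ, Y ≤ X → X ≤ N →
        ε * N ≤ ((Ioc Y X).filter (· ∈ E)).card → ∀ x : ℝ,
        |(((((Ioc Y X).filter (· ∈ E)).filter (fun n => TT h n / √(c0 * k) ≤ x)).card : ℝ) /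
          ((Ioc Y X).filter (· ∈ E)).card) - Phi x| ≤ ε)).card : ℝ) ≤ ε * (H : ℝ) ^ k := by
  classical
  obtain ⟨T, hT, hlevy⟩ := levy hε
  have hc := c0_pos
  have hc1 := c0_lt
  obtain ⟨η, hη⟩ : ∃ η : ℝ, η = 2 * c0 / (3 * T ^ 3) := ⟨_, rfl⟩
  have hη0 : 0 < η := by rw [hη]; positivity
  obtain ⟨θ, hθ⟩ : ∃ θ : ℝ, θ = η ^ 2 * ε := ⟨_, rfl⟩
  have hθ0 : 0 < θ := by rw [hθ]; positivity
  refine ⟨⌈3 * T ^ 5 / c0 ^ 2⌉₊ + ⌈4 / (θ * ε)⌉₊ + 1, fun k hk => ?_⟩
  have hk1 : 3 * T ^ 5 / c0 ^ 2 ≤ k := by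
    have h1 : 3 * T ^ 5 / c0 ^ 2 ≤ ⌈3 * T ^ 5 / c0 ^ 2⌉₊ := Nat.le_ceil _
    have h2 : ((⌈3 * T ^ 5 / c0 ^ 2⌉₊ : ℕ) : ℝ) ≤ k := by exact_mod_cast (by omega : ⌈3 * T ^ 5 / c0 ^ 2⌉₊ ≤ k)
    linarith
  have hk2 : 4 / (θ * ε) ≤ k := by
    have h1 : 4 / (θ * ε) ≤ ⌈4 / (θ * ε)⌉₊ := Nat.le_ceil _
    have h2 : ((⌈4 / (θ * ε)⌉₊ : ℕ) : ℝ) ≤ k := by exact_mod_cast (by omega : ⌈4 / (θ * ε)⌉₊ ≤ k)
    linarith
  have hk0 : 1 ≤ k := by omega
  have hkr : (1 : ℝ) ≤ k := by exact_mod_cast hk0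
  obtain ⟨δ, hδ⟩ : ∃ δ : ℝ, δ = ε / (6 ^ (k + 1) * T) := ⟨_, rfl⟩
  have hT0 : 0 < T := by linarith
  have hδ0 : 0 < δ := by rw [hδ]; positivity
  obtain ⟨H₁, h1⟩ := few_bad k hδ0
  obtain ⟨H₂, h2⟩ := few_sq (k := k) (κ := θ * ε / 4) (θ := θ * k ^ 2) (by positivity) (by positivity)
  refine ⟨H₁ + H₂ + 1, fun N H hH hHN E _ _ => ?_⟩
  have hN0 : (0 : ℝ) < N := by exact_mod_cast (by omega : 0 < N)
  have hH0 : (0 : ℝ) < H := by exact_mod_cast (by omega : 0 < H)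
  obtain ⟨w, hw⟩ : ∃ w : ℕ → ℝ, w = fun n => if n ∈ E then (1 : ℝ) else 0 := ⟨_, rfl⟩
  have hw0 : ∀ n, 0 ≤ w n := by intro n; rw [hw]; dsimp only; split_ifs <;> norm_num
  have hw1 : ∀ n, |w n| ≤ 1 := by intro n; rw [hw]; dsimp only; split_ifs <;> norm_num
  have b1 := h1 N H (by omega) hHN w hw1
  have b2 := h2 N H (by omega) hHN
  have hsub : (tup k H).filter (fun h => ¬ ∀ Y X : ℕ, Y ≤ X → X ≤ N →
        ε * N ≤ ((Ioc Y X).filter (· ∈ E)).card → ∀ x : ℝ,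
        |(((((Ioc Y X).filter (· ∈ E)).filter (fun n => TT h n / √(c0 * k) ≤ x)).card : ℝ) /
          ((Ioc Y X).filter (· ∈ E)).card) - Phi x| ≤ ε) ⊆
      (tup k H).filter (fun h => ¬ Good w δ N h) ∪
      (tup k H).filter (fun h : Fin k → ℕ => θ * k ^ 2 * N < ∑ n ∈ Icc 1 N, (SQ h n - c0 * k) ^ 2) := by
    intro h hh
    rw [mem_filter] at hh
    obtain ⟨hh1, hh2⟩ := hh
    rw [mem_union, mem_filter, mem_filter]
    by_contra hcon
    push Not at hcon
    have hg : Good w δ N h := hcon.1 hh1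
    have hV := hcon.2 hh1
    apply hh2
    intro Y X hYX hXN hF x
    obtain ⟨F, hFdef⟩ : ∃ F : Finset ℕ, F = (Ioc Y X).filter (· ∈ E) := ⟨_, rfl⟩
    rw [← hFdef] at hF ⊢
    have hF0 : (0 : ℝ) < F.card := lt_of_lt_of_le (by positivity) hF
    have hFne : F.Nonempty := by
      rw [← card_pos]
      exact_mod_cast hF0
    rw [← emp_real F (fun n => TT h n / √(c0 * k)) x]
    refine hlevy _ (emp_prob hFne _) (fun t ht => ?_) x
    have ht2 : t ^ 2 ≤ T ^ 2 := by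
      rw [← sq_abs]
      exact pow_le_pow_left₀ (abs_nonneg _) ht 2
    have ht4 : t ^ 4 ≤ T ^ 4 := by
      have : (t ^ 2) ^ 2 ≤ (T ^ 2) ^ 2 := pow_le_pow_left₀ (sq_nonneg _) ht2 2
      nlinarith
    have hck : 3 * T ^ 5 ≤ k * c0 ^ 2 := by
      rw [div_le_iff₀ (by positivity)] at hk1
      linarith
    have hT2k : t ^ 2 ≤ c0 * k := by
      have e1 : T ^ 2 ≤ 3 * T ^ 5 := by nlinarith [one_le_pow₀ hT (n := 3), sq_nonneg T, pow_pos hT0 2]
      have e2 : (k : ℝ) * c0 ^ 2 ≤ c0 * k := by nlinarith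
      linarith
    have hcm := char_main hk0 hw0 hδ0.le hg hYX hXN hT2k
    have hsumF : ∀ f : ℕ → ℝ, ∑ n ∈ Ioc Y X, w n * f n = ∑ n ∈ F, f n := by
      intro f
      rw [hFdef, sum_filter]
      apply sum_congr rfl
      intro n _
      rw [hw]
      dsimp only
      split_ifs <;> simp
    have hsumFc : ∀ f : ℕ → ℂ, ∑ n ∈ Ioc Y X, (w n : ℂ) * f n = ∑ n ∈ F, f n := by
      intro f
      rw [hFdef, sum_filter]
      apply sum_congr rfl
      intro n _
      rw [hw]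
      dsimp only
      split_ifs <;> simp
    rw [hsumF, hsumFc] at hcm
    have e3 : charFun (emp F (fun n => TT h n / √(c0 * k))) t - ((Real.exp (-(t ^ 2 / 2)) : ℝ) : ℂ) =
        ((F.card : ℝ) : ℂ)⁻¹ * ∑ n ∈ F, (Complex.exp (Complex.I * (t * (TT h n / √(c0 * k)) : ℝ)) -
          ((Real.exp (-(t ^ 2 / 2)) : ℝ) : ℂ)) := by
      rw [emp_char, sum_sub_distrib, sum_const, nsmul_eq_mul, mul_sub]
      congr 1
      rw [← mul_assoc]
      have : ((F.card : ℝ) : ℂ) ≠ 0 := by exact_mod_cast hF0.ne'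
      push_cast at this ⊢
      rw [inv_mul_cancel₀ this, one_mul]
    rw [e3, norm_mul, norm_inv, Complex.norm_real, Real.norm_eq_abs, abs_of_pos hF0, inv_mul_le_iff₀ hF0]
    refine hcm.trans ?_
    -- first term
    have t1 : 2 * (6 ^ k * (δ * N)) ≤ F.card * (1 / (3 * T)) := by
      have e4 : 2 * (6 ^ k * (δ * N)) = (ε * N) * (1 / (3 * T)) := by
        rw [hδ, pow_succ]
        field_simp
        norm_num
      rw [e4]
      exact mul_le_mul_of_nonneg_right hF (by positivity)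
    -- the variance of the number of squarefree entries
    have hV2 : ∑ n ∈ F, (SQ h n - c0 * k) ^ 2 ≤ θ * k ^ 2 * N := by
      refine le_trans (sum_le_sum_of_subset_of_nonneg ?_ fun _ _ _ => sq_nonneg _) hV
      intro n hn
      rw [hFdef, mem_filter, mem_Ioc] at hn
      rw [mem_Icc]
      omega
    have t3 : ∑ n ∈ F, |SQ h n - c0 * k| ≤ F.card * (η * k) := by
      have e5 : ∀ n ∈ F, |SQ h n - c0 * k| ≤ (SQ h n - c0 * k) ^ 2 * (1 / (2 * (η * k))) + η * k / 2 := by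
        intro n _
        have e6 : 0 < η * k := by positivity
        have e7 := sq_nonneg (|SQ h n - c0 * k| - η * k)
        have e8 := sq_abs (SQ h n - c0 * k)
        rw [← e8]
        rw [show |SQ h n - c0 * k| ^ 2 * (1 / (2 * (η * k))) + η * k / 2 =
          (|SQ h n - c0 * k| ^ 2 + (η * k) ^ 2) / (2 * (η * k)) by field_simp, le_div_iff₀ (by positivity)]
        nlinarith
      calc ∑ n ∈ F, |SQ h n - c0 * k| ≤ ∑ n ∈ F, ((SQ h n - c0 * k) ^ 2 * (1 / (2 * (η * k))) + η * k / 2) := sum_le_sum e5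
        _ = (∑ n ∈ F, (SQ h n - c0 * k) ^ 2) * (1 / (2 * (η * k))) + F.card * (η * k / 2) := by
            rw [sum_add_distrib, ← sum_mul, sum_const, nsmul_eq_mul]
        _ ≤ (θ * k ^ 2 * N) * (1 / (2 * (η * k))) + F.card * (η * k / 2) := by
            have := mul_le_mul_of_nonneg_right hV2 (by positivity : (0 : ℝ) ≤ 1 / (2 * (η * k)))
            linarith
        _ = (ε * N) * (η * k / 2) + F.card * (η * k / 2) := by
            rw [hθ]
            field_simp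
        _ ≤ F.card * (η * k / 2) + F.card * (η * k / 2) := by
            have := mul_le_mul_of_nonneg_right hF (by positivity : (0 : ℝ) ≤ η * k / 2)
            linarith
        _ = _ := by ring
    have t4 : ∑ n ∈ F, (t ^ 4 / (c0 ^ 2 * k) + t ^ 2 / 2 * |SQ h n / (c0 * k) - 1|) ≤
        F.card * (1 / (3 * T)) + F.card * (1 / (3 * T)) := by
      have e9 : ∀ n ∈ F, t ^ 4 / (c0 ^ 2 * k) + t ^ 2 / 2 * |SQ h n / (c0 * k) - 1| ≤
          1 / (3 * T) + T ^ 2 / (2 * c0 * k) * |SQ h n - c0 * k| := by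
        intro n _
        have e10 : t ^ 4 / (c0 ^ 2 * k) ≤ 1 / (3 * T) := by
          rw [div_le_div_iff₀ (by positivity) (by positivity)]
          have : t ^ 4 * (3 * T) ≤ T ^ 4 * (3 * T) := mul_le_mul_of_nonneg_right ht4 (by positivity)
          nlinarith
        have e11 : SQ h n / (c0 * k) - 1 = (SQ h n - c0 * k) / (c0 * k) := by
          field_simp
        have e12 : t ^ 2 / 2 * |SQ h n / (c0 * k) - 1| ≤ T ^ 2 / (2 * c0 * k) * |SQ h n - c0 * k| := by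
          rw [e11, abs_div, abs_of_pos (by positivity : (0 : ℝ) < c0 * k)]
          have : t ^ 2 / 2 * (|SQ h n - c0 * k| / (c0 * k)) ≤ T ^ 2 / 2 * (|SQ h n - c0 * k| / (c0 * k)) :=
            mul_le_mul_of_nonneg_right (by linarith) (by positivity)
          refine this.trans (le_of_eq ?_)
          field_simp
        linarith
      calc _ ≤ ∑ n ∈ F, (1 / (3 * T) + T ^ 2 / (2 * c0 * k) * |SQ h n - c0 * k|) := sum_le_sum e9
        _ = F.card * (1 / (3 * T)) + T ^ 2 / (2 * c0 * k) * ∑ n ∈ F, |SQ h n - c0 * k| := by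
            rw [sum_add_distrib, sum_const, nsmul_eq_mul, mul_sum]
        _ ≤ F.card * (1 / (3 * T)) + T ^ 2 / (2 * c0 * k) * (F.card * (η * k)) := by
            have := mul_le_mul_of_nonneg_left t3 (by positivity : (0 : ℝ) ≤ T ^ 2 / (2 * c0 * k))
            linarith
        _ = _ := by
            rw [hη]
            field_simp
    have e13 : (F.card : ℝ) * (1 / (3 * T)) + (F.card * (1 / (3 * T)) + F.card * (1 / (3 * T))) = F.card * (1 / T) := by
      field_simp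
      norm_num
    linarith
  have hfin1 : 3 ^ k * (δ * (H : ℝ) ^ k) ≤ ε / 2 * (H : ℝ) ^ k := by
    rw [← mul_assoc]
    apply mul_le_mul_of_nonneg_right _ (by positivity)
    rw [hδ, mul_div_assoc', div_le_div_iff₀ (by positivity) (by norm_num)]
    have h3 : (3 : ℝ) ^ k ≤ 6 ^ k := pow_le_pow_left₀ (by norm_num) (by norm_num) k
    have h4 : (6 : ℝ) ^ k ≤ 6 ^ k * T := by nlinarith [pow_pos (by norm_num : (0 : ℝ) < 6) k]
    have h5 : (3 : ℝ) ^ k * 2 ≤ 6 ^ (k + 1) * T := by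
      rw [pow_succ]
      nlinarith [pow_pos (by norm_num : (0 : ℝ) < 6) k]
    nlinarith
  have hfin2 : (k + k ^ 2 * (θ * ε / 4)) / (θ * k ^ 2) * (H : ℝ) ^ k ≤ ε / 2 * (H : ℝ) ^ k := by
    apply mul_le_mul_of_nonneg_right _ (by positivity)
    rw [div_le_iff₀ (by positivity)]
    have h3 : 4 ≤ k * (θ * ε) := by
      rw [div_le_iff₀ (by positivity)] at hk2
      linarith
    nlinarith
  calc _ ≤ (((tup k H).filter (fun h => ¬ Good w δ N h) ∪
      (tup k H).filter (fun h : Fin k → ℕ => θ * k ^ 2 * N < ∑ n ∈ Icc 1 N, (SQ h n - c0 * k) ^ 2)).card : ℝ) := by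
        exact_mod_cast card_le_card hsub
    _ ≤ (((tup k H).filter (fun h => ¬ Good w δ N h)).card : ℝ) +
      (((tup k H).filter (fun h : Fin k → ℕ => θ * k ^ 2 * N < ∑ n ∈ Icc 1 N, (SQ h n - c0 * k) ^ 2)).card : ℝ) := by
        exact_mod_cast card_union_le _ _
    _ ≤ ε / 2 * (H : ℝ) ^ k + ε / 2 * (H : ℝ) ^ k := add_le_add (b1.trans hfin1) (b2.trans hfin2)
    _ = _ := by ring

end Pool.Agent.TH893.GS
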