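import Pool.Agent.TH893.GS.Char

set_option autoImplicit false

/-! The number of squarefree entries of almost all tuples. -/

namespace Pool.Agent.TH893.GS

open Finset Filter Topology

theorem moebius_sq_eq (n : ℕ) (hn : n ≠ 0) :
    ((ArithmeticFunction.moebius n : ℤ) : ℝ) ^ 2 =
      ∑ d ∈ Finset.Icc 1 n, if d ^ 2 ∣ n then ((ArithmeticFunction.moebius d : ℤ) : ℝ) else 0 := by
  obtain ⟨a, b, hab, ha⟩ := Nat.sq_mul_squarefree n
  have hb0 : b ≠ 0 := by rintro rfl; apply hn; rw [← hab]; simp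
  have ha0 : a ≠ 0 := by rintro rfl; apply hn; rw [← hab]; simp
  have key : ∀ d : ℕ, d ^ 2 ∣ n ↔ d ∣ b := by
    intro d
    constructor
    · intro h
      have hd0 : d ≠ 0 := by
        rintro rfl
        rw [zero_pow two_ne_zero, zero_dvd_iff] at h
        exact hn h
      rw [← Nat.factorization_le_iff_dvd (pow_ne_zero _ hd0) hn] at h
      rw [← Nat.factorization_le_iff_dvd hd0 hb0]
      intro p
      have h1 := h p
      rw [← hab, Nat.factorization_mul (pow_ne_zero _ hb0) ha0, Nat.factorization_pow,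
        Nat.factorization_pow] at h1
      have h2 := ha.natFactorization_le_one p
      simp only [Finsupp.coe_smul, Finsupp.coe_add, Pi.add_apply, Pi.smul_apply, smul_eq_mul] at h1
      omega
    · intro h
      rw [← hab]
      exact Dvd.dvd.mul_right (pow_dvd_pow_of_dvd h 2) a
  have h1 : (∑ d ∈ Finset.Icc 1 n, if d ^ 2 ∣ n then ((ArithmeticFunction.moebius d : ℤ) : ℝ) else 0)
      = ∑ d ∈ b.divisors, ((ArithmeticFunction.moebius d : ℤ) : ℝ) := by
    rw [← Finset.sum_filter]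
    apply Finset.sum_congr _ (fun _ _ => rfl)
    ext d
    simp only [Finset.mem_filter, Finset.mem_Icc, Nat.mem_divisors, key]
    constructor
    · rintro ⟨-, h⟩; exact ⟨h, hb0⟩
    · rintro ⟨h, -⟩
      refine ⟨⟨Nat.pos_of_dvd_of_pos h (Nat.pos_of_ne_zero hb0), ?_⟩, h⟩
      have h3 : d ≤ b := Nat.le_of_dvd (Nat.pos_of_ne_zero hb0) h
      have h4 : b ∣ n := by rw [← hab]; exact Dvd.dvd.mul_right (dvd_pow_self b two_ne_zero) a
      exact h3.trans (Nat.le_of_dvd (Nat.pos_of_ne_zero hn) h4)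
  rw [h1]
  have h2 : (∑ d ∈ b.divisors, (ArithmeticFunction.moebius d : ℤ)) = if b = 1 then 1 else 0 := by
    have := congrArg (fun f => f b) ArithmeticFunction.moebius_mul_coe_zeta
    simp only [ArithmeticFunction.coe_mul_zeta_apply, ArithmeticFunction.one_apply] at this
    exact this
  have h2' : (∑ d ∈ b.divisors, ((ArithmeticFunction.moebius d : ℤ) : ℝ)) = if b = 1 then 1 else 0 := by
    have := congrArg (fun z : ℤ => (z : ℝ)) h2
    push_cast at this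
    exact this
  rw [h2']
  have h3 : ((ArithmeticFunction.moebius n : ℤ) : ℝ) ^ 2 = if Squarefree n then 1 else 0 := by
    have := congrArg (fun z : ℤ => (z : ℝ)) (ArithmeticFunction.moebius_sq (n := n))
    push_cast at this
    exact this
  rw [h3]
  have h4 : Squarefree n ↔ b = 1 := by
    constructor
    · intro h
      have := h b (by rw [← hab, ← sq]; exact dvd_mul_right _ _)
      exact Nat.isUnit_iff.mp this
    · rintro rfl
      rw [← hab]; simpa using ha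
  simp only [h4]

lemma mu_sq_eq (n : ℕ) (hn : 1 ≤ n) : mu n ^ 2 = ∑ d ∈ Icc 1 n, if d ^ 2 ∣ n then mu d else 0 :=
  moebius_sq_eq n (by omega)

/-- `∑ μ(d)/d² = 6/π²` -/
lemma moebius_hasSum : HasSum (fun d : ℕ => mu d * (1 / (d : ℝ) ^ 2)) (6 / Real.pi ^ 2) := by
  have h2 : (1 : ℝ) < (2 : ℂ).re := by norm_num
  have hs : LSeriesSummable (fun n => ((ArithmeticFunction.moebius n : ℤ) : ℂ)) 2 :=
    ArithmeticFunction.LSeriesSummable_moebius_iff.mpr h2
  have hL := ArithmeticFunction.LSeries_zeta_mul_Lseries_moebius h2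
  rw [ArithmeticFunction.LSeries_zeta_eq_riemannZeta h2, riemannZeta_two] at hL
  have hpi : (Real.pi : ℂ) ≠ 0 := by exact_mod_cast Real.pi_ne_zero
  have hval : LSeries (fun n => ((ArithmeticFunction.moebius n : ℤ) : ℂ)) 2 = 6 / (Real.pi : ℂ) ^ 2 := by
    field_simp
    field_simp at hL
    linear_combination hL
  have hsum := hs.LSeriesHasSum
  rw [hval] at hsum
  have h3 : HasSum (fun d : ℕ => ((mu d * (1 / (d : ℝ) ^ 2) : ℝ) : ℂ)) (((6 / Real.pi ^ 2 : ℝ)) : ℂ) := by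
    have e : (((6 / Real.pi ^ 2 : ℝ)) : ℂ) = 6 / (Real.pi : ℂ) ^ 2 := by push_cast; ring
    rw [e]
    unfold LSeriesHasSum at hsum
    refine hsum.congr_fun ?_ 
    intro d
    rcases eq_or_ne d 0 with rfl | hd
    · simp [mu]
    · rw [LSeries.term_of_ne_zero hd]
      unfold mu
      push_cast
      rw [show ((d : ℂ) ^ (2 : ℂ)) = (d : ℂ) ^ (2 : ℕ) by norm_cast]
      ring
  exact Complex.hasSum_ofReal.mp h3

lemma mu_hasSum : HasSum (fun d : ℕ => mu d * (1 / (d : ℝ) ^ 2)) c0 := moebius_hasSum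

/-- truncation of the divisor sum for the square of the Möbius function -/
lemma trunc (D m M : ℕ) (hm : 1 ≤ m) (hM : m ≤ M) :
    |mu m ^ 2 - ∑ d ∈ Icc 1 D, (if d ^ 2 ∣ m then mu d else 0)| ≤
      ∑ d ∈ Ioc D M, (if d ^ 2 ∣ m then (1 : ℝ) else 0) := by
  have hd : ∀ d, m < d → ¬ d ^ 2 ∣ m := by
    intro d hd hdv
    have h1 := Nat.le_of_dvd (by omega) hdv
    nlinarith
  have h1 : mu m ^ 2 = ∑ d ∈ Icc 1 (max D M), (if d ^ 2 ∣ m then mu d else 0) := by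
    rw [mu_sq_eq m hm]
    apply sum_subset
    · intro d hd
      rw [mem_Icc] at hd ⊢
      exact ⟨hd.1, hd.2.trans (hM.trans (le_max_right _ _))⟩
    · intro d hd1 hd2
      rw [mem_Icc] at hd1 hd2
      rw [if_neg]
      exact hd d (by omega)
  have h2 : ∑ d ∈ Icc 1 (max D M), (if d ^ 2 ∣ m then mu d else 0) =
      ∑ d ∈ Icc 1 D, (if d ^ 2 ∣ m then mu d else 0) + ∑ d ∈ Ioc D (max D M), (if d ^ 2 ∣ m then mu d else 0) := by
    have e1 : ∀ z : ℕ, Icc 1 z = Ioc 0 z := fun z => by ext; simp [Nat.succ_le_iff]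
    rw [e1, e1]
    exact (sum_Ioc_consecutive _ (Nat.zero_le _) (le_max_left _ _)).symm
  rw [h1, h2, add_sub_cancel_left]
  refine (abs_sum_le_sum_abs _ _).trans ?_
  calc ∑ d ∈ Ioc D (max D M), |if d ^ 2 ∣ m then mu d else 0| ≤
        ∑ d ∈ Ioc D (max D M), (if d ^ 2 ∣ m then (1 : ℝ) else 0) := by
          apply sum_le_sum
          intro d _
          split_ifs
          · exact mu_abs d
          · simp
    _ = _ := by
          rcases le_total D M with h | h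
          · rw [max_eq_right h]
          · rw [max_eq_left h, Ioc_self, sum_empty, Ioc_eq_empty (by omega), sum_empty]

lemma shift_sum (n H : ℕ) (f : ℕ → ℝ) : ∑ v ∈ Icc 1 H, f (n + v) = ∑ m ∈ Ioc n (n + H), f m := by
  refine sum_nbij' (fun v => n + v) (fun m => m - n) ?_ ?_ ?_ ?_ ?_
  · intro v hv
    rw [mem_Icc] at hv
    rw [mem_Ioc]
    omega
  · intro m hm
    rw [mem_Ioc] at hm
    rw [mem_Icc]
    omega
  · intro v _
    simp
  · intro m hm
    rw [mem_Ioc] at hm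
    omega
  · intro v _
    rfl

lemma ind_sum (d M : ℕ) : ∑ m ∈ Ioc 0 M, (if d ∣ m then (1 : ℝ) else 0) = ((M / d : ℕ) : ℝ) := by
  rw [← sum_filter, sum_const, nsmul_eq_mul, mul_one, Nat.Ioc_filter_dvd_card_eq_div]

/-- multiples in an interval -/
lemma mult_count (n H d : ℕ) (hd : 1 ≤ d) :
    |(∑ v ∈ Icc 1 H, (if d ∣ n + v then (1 : ℝ) else 0)) - (H : ℝ) / d| ≤ 1 := by
  rw [shift_sum n H (fun m => if d ∣ m then (1 : ℝ) else 0)]
  have h1 := sum_Ioc_consecutive (fun m => if d ∣ m then (1 : ℝ) else 0) (Nat.zero_le n) (Nat.le_add_right n H)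
  rw [ind_sum, ind_sum] at h1
  have hd0 : (0 : ℝ) < d := by exact_mod_cast hd
  have a1 : ((n / d : ℕ) : ℝ) ≤ n / d := Nat.cast_div_le
  have a2 : (((n + H) / d : ℕ) : ℝ) ≤ ((n + H : ℕ) : ℝ) / d := Nat.cast_div_le
  have a3 : (n : ℝ) / d < ((n / d : ℕ) : ℝ) + 1 := by
    rw [div_lt_iff₀ hd0]
    exact_mod_cast Nat.lt_mul_of_div_lt (Nat.lt_succ_self _) hd
  have a4 : ((n + H : ℕ) : ℝ) / d < (((n + H) / d : ℕ) : ℝ) + 1 := by
    rw [div_lt_iff₀ hd0]
    exact_mod_cast Nat.lt_mul_of_div_lt (Nat.lt_succ_self _) hd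
  have a5 : ((n + H : ℕ) : ℝ) / d = n / d + H / d := by push_cast; ring
  rw [abs_le]
  constructor <;> linarith

lemma sum_mult_le (N v d : ℕ) (hv : v ≤ N) (hd : 1 ≤ d) :
    ∑ n ∈ Icc 1 N, (if d ∣ n + v then (1 : ℝ) else 0) ≤ 2 * N / d := by
  have h1 : ∑ n ∈ Icc 1 N, (if d ∣ n + v then (1 : ℝ) else 0) = ∑ m ∈ Ioc v (v + N), (if d ∣ m then (1 : ℝ) else 0) := by
    rw [← shift_sum v N (fun m => if d ∣ m then (1 : ℝ) else 0)]
    apply sum_congr rfl
    intro n _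
    rw [add_comm]
  rw [h1]
  have h2 : ∑ m ∈ Ioc v (v + N), (if d ∣ m then (1 : ℝ) else 0) ≤ ∑ m ∈ Ioc 0 (v + N), (if d ∣ m then (1 : ℝ) else 0) := by
    apply sum_le_sum_of_subset_of_nonneg
    · exact Ioc_subset_Ioc_left (Nat.zero_le _)
    · intro _ _ _
      positivity
  rw [ind_sum] at h2
  have hd0 : (0 : ℝ) < d := by exact_mod_cast hd
  have a2 : (((v + N) / d : ℕ) : ℝ) ≤ ((v + N : ℕ) : ℝ) / d := Nat.cast_div_le
  have a3 : ((v + N : ℕ) : ℝ) / d ≤ 2 * N / d := by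
    apply div_le_div_of_nonneg_right _ hd0.le
    have : (v : ℝ) ≤ N := by exact_mod_cast hv
    push_cast
    linarith
  linarith

theorem sqf_avg {κ : ℝ} (hκ : 0 < κ) : ∃ H₀ : ℕ, ∀ N H : ℕ, H₀ ≤ H → H ≤ N →
    ∑ n ∈ Icc 1 N, |∑ v ∈ Icc 1 H, (mu (n + v) ^ 2 - c0)| ≤ κ * H * N := by
  have h1 := (mu_hasSum.tendsto_sum_nat)
  rw [Metric.tendsto_atTop] at h1
  obtain ⟨D0, hD0⟩ := h1 (κ / 4) (by positivity)
  obtain ⟨D, hD⟩ : ∃ D : ℕ, D = D0 + ⌈8 / κ⌉₊ + 1 := ⟨_, rfl⟩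
  have hDpos : (0 : ℝ) < D := by rw [hD]; positivity
  have hD1 : |∑ d ∈ Icc 1 D, mu d * (1 / (d : ℝ) ^ 2) - c0| ≤ κ / 4 := by
    have h2 := hD0 (D + 1) (by omega)
    rw [Real.dist_eq] at h2
    have e : ∑ d ∈ range (D + 1), mu d * (1 / (d : ℝ) ^ 2) = ∑ d ∈ Icc 1 D, mu d * (1 / (d : ℝ) ^ 2) := by
      rw [range_eq_Ico, sum_eq_sum_Ico_succ_bot (by omega)]
      have : mu 0 = 0 := by simp [mu]
      rw [this, zero_mul, zero_add]
      rfl
    rw [e] at h2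
    exact h2.le
  have hD2 : 8 / κ ≤ D := by
    have : 8 / κ ≤ ⌈8 / κ⌉₊ := Nat.le_ceil _
    rw [hD]
    push_cast
    have h3 : (0 : ℝ) ≤ D0 := Nat.cast_nonneg _
    linarith
  refine ⟨⌈4 * D / κ⌉₊ + 1, fun N H hH hHN => ?_⟩
  have hH1 : 4 * D / κ ≤ H := by
    have : 4 * (D : ℝ) / κ ≤ ⌈4 * (D : ℝ) / κ⌉₊ := Nat.le_ceil _
    have h3 : ((⌈4 * (D : ℝ) / κ⌉₊ + 1 : ℕ) : ℝ) ≤ H := by exact_mod_cast hH
    push_cast at h3
    linarith
  have hH0 : (1 : ℝ) ≤ H := by exact_mod_cast (by omega : 1 ≤ H)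
  have hN0 : (1 : ℝ) ≤ N := by exact_mod_cast (by omega : 1 ≤ N)
  have key : ∀ n ∈ Icc 1 N, |∑ v ∈ Icc 1 H, (mu (n + v) ^ 2 - c0)| ≤
      ∑ v ∈ Icc 1 H, ∑ d ∈ Ioc D (2 * N), (if d ^ 2 ∣ n + v then (1 : ℝ) else 0) + (D + κ / 4 * H) := by
    intro n hn
    rw [mem_Icc] at hn
    have e1 : ∑ v ∈ Icc 1 H, (mu (n + v) ^ 2 - c0) =
        ∑ v ∈ Icc 1 H, (mu (n + v) ^ 2 - ∑ d ∈ Icc 1 D, (if d ^ 2 ∣ n + v then mu d else 0)) +
        (∑ d ∈ Icc 1 D, mu d * ((∑ v ∈ Icc 1 H, (if d ^ 2 ∣ n + v then (1 : ℝ) else 0)) - (H : ℝ) / ((d ^ 2 : ℕ) : ℝ)) +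
        H * (∑ d ∈ Icc 1 D, mu d * (1 / (d : ℝ) ^ 2) - c0)) := by
      have e2 : ∑ v ∈ Icc 1 H, ∑ d ∈ Icc 1 D, (if d ^ 2 ∣ n + v then mu d else 0) =
          ∑ d ∈ Icc 1 D, mu d * ∑ v ∈ Icc 1 H, (if d ^ 2 ∣ n + v then (1 : ℝ) else 0) := by
        rw [sum_comm]
        apply sum_congr rfl
        intro d _
        rw [mul_sum]
        apply sum_congr rfl
        intro v _
        split_ifs <;> simp
      have e3 : ∑ d ∈ Icc 1 D, mu d * ((∑ v ∈ Icc 1 H, (if d ^ 2 ∣ n + v then (1 : ℝ) else 0)) - (H : ℝ) / ((d ^ 2 : ℕ) : ℝ)) =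
          ∑ d ∈ Icc 1 D, mu d * (∑ v ∈ Icc 1 H, (if d ^ 2 ∣ n + v then (1 : ℝ) else 0)) -
          H * ∑ d ∈ Icc 1 D, mu d * (1 / (d : ℝ) ^ 2) := by
        rw [mul_sum, ← sum_sub_distrib]
        apply sum_congr rfl
        intro d _
        push_cast
        ring
      rw [e3, sum_sub_distrib, sum_sub_distrib, e2, sum_const, Nat.card_Icc, Nat.add_sub_cancel, nsmul_eq_mul]
      ring
    rw [e1]
    refine (abs_add_le _ _).trans (add_le_add ?_ ((abs_add_le _ _).trans (add_le_add ?_ ?_)))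
    · refine (abs_sum_le_sum_abs _ _).trans (sum_le_sum fun v hv => ?_)
      rw [mem_Icc] at hv
      exact trunc D (n + v) (2 * N) (by omega) (by omega)
    · refine (abs_sum_le_sum_abs _ _).trans ?_
      calc ∑ d ∈ Icc 1 D, |mu d * ((∑ v ∈ Icc 1 H, (if d ^ 2 ∣ n + v then (1 : ℝ) else 0)) - (H : ℝ) / ((d ^ 2 : ℕ) : ℝ))| ≤
            ∑ _d ∈ Icc 1 D, (1 : ℝ) := by
              apply sum_le_sum
              intro d hd
              rw [mem_Icc] at hd
              rw [abs_mul]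
              have := mult_count n H (d ^ 2) (Nat.one_le_pow _ _ hd.1)
              exact mul_le_one₀ (mu_abs d) (abs_nonneg _) this
        _ = D := by simp
    · rw [abs_mul, abs_of_nonneg (by linarith : (0 : ℝ) ≤ H), mul_comm]
      exact mul_le_mul_of_nonneg_right hD1 (by linarith)
  have h5 : ∑ n ∈ Icc 1 N, ∑ v ∈ Icc 1 H, ∑ d ∈ Ioc D (2 * N), (if d ^ 2 ∣ n + v then (1 : ℝ) else 0) ≤ H * (2 * N / D) := by
    rw [sum_comm]
    have h6 : ∀ v ∈ Icc 1 H, ∑ n ∈ Icc 1 N, ∑ d ∈ Ioc D (2 * N), (if d ^ 2 ∣ n + v then (1 : ℝ) else 0) ≤ 2 * N / D := by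
      intro v hv
      rw [mem_Icc] at hv
      rw [sum_comm]
      calc ∑ d ∈ Ioc D (2 * N), ∑ n ∈ Icc 1 N, (if d ^ 2 ∣ n + v then (1 : ℝ) else 0) ≤
            ∑ d ∈ Ioc D (2 * N), 2 * N * ((d : ℝ) ^ 2)⁻¹ := by
              apply sum_le_sum
              intro d hd
              rw [mem_Ioc] at hd
              have := sum_mult_le N v (d ^ 2) (by omega) (Nat.one_le_pow _ _ (by omega))
              push_cast at this
              rw [← div_eq_mul_inv]
              exact this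
        _ = 2 * N * ∑ d ∈ Ioc D (2 * N), ((d : ℝ) ^ 2)⁻¹ := by rw [mul_sum]
        _ ≤ 2 * N * (D : ℝ)⁻¹ := by
              apply mul_le_mul_of_nonneg_left _ (by linarith)
              rcases le_total D (2 * N) with h | h
              · have := sum_Ioc_inv_sq_le_sub (α := ℝ) (k := D) (by omega) h
                refine this.trans ?_
                have : (0 : ℝ) ≤ ((2 * N : ℕ) : ℝ)⁻¹ := by positivity
                linarith
              · rw [Ioc_eq_empty (by omega), sum_empty]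
                positivity
        _ = _ := by rw [← div_eq_mul_inv]
    refine (sum_le_sum h6).trans (le_of_eq ?_)
    rw [sum_const, Nat.card_Icc, Nat.add_sub_cancel, nsmul_eq_mul]
  have h7 : 2 * (N : ℝ) / D ≤ κ / 4 * N := by
    rw [div_le_iff₀ hDpos]
    have : 8 ≤ κ * D := by
      rw [div_le_iff₀ hκ] at hD2
      linarith
    nlinarith
  have h8 : (D : ℝ) ≤ κ / 4 * H := by
    rw [div_le_iff₀ hκ] at hH1
    linarith
  calc ∑ n ∈ Icc 1 N, |∑ v ∈ Icc 1 H, (mu (n + v) ^ 2 - c0)| ≤ ∑ n ∈ Icc 1 N,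
      (∑ v ∈ Icc 1 H, ∑ d ∈ Ioc D (2 * N), (if d ^ 2 ∣ n + v then (1 : ℝ) else 0) + (D + κ / 4 * H)) := sum_le_sum key
    _ ≤ H * (2 * N / D) + N * (D + κ / 4 * H) := by
        rw [sum_add_distrib, sum_const, Nat.card_Icc, Nat.add_sub_cancel, nsmul_eq_mul]
        linarith
    _ ≤ H * (κ / 4 * N) + N * (κ / 4 * H + κ / 4 * H) := by
        have := mul_le_mul_of_nonneg_left h7 (by linarith : (0 : ℝ) ≤ H)
        have := mul_le_mul_of_nonneg_left h8 (by linarith : (0 : ℝ) ≤ N)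
        nlinarith
    _ ≤ _ := by nlinarith [mul_nonneg (mul_nonneg hκ.le (by linarith : (0 : ℝ) ≤ H)) (by linarith : (0 : ℝ) ≤ N)]

lemma f_abs (m : ℕ) : |mu m ^ 2 - c0| ≤ 1 := by
  have h1 := c0_pos
  have h2 := c0_lt
  rcases mu_cases m with h | h | h <;> rw [h, abs_le] <;> constructor <;> norm_num <;> linarith

lemma second_moment {k H : ℕ} (hH : 1 ≤ H) (n : ℕ) :
    ∑ h ∈ tup k H, (SQ h n - c0 * k) ^ 2 ≤ (H : ℝ) ^ k * k +
      (H : ℝ) ^ k * k ^ 2 * (|∑ v ∈ Icc 1 H, (mu (n + v) ^ 2 - c0)| / H) := by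
  obtain ⟨A, hA⟩ : ∃ A, A = |∑ v ∈ Icc 1 H, (mu (n + v) ^ 2 - c0)| := ⟨_, rfl⟩
  rw [← hA]
  have hH0 : (0 : ℝ) < H := by exact_mod_cast hH
  have hA0 : 0 ≤ A / H := by rw [hA]; positivity
  have e1 : ∀ h : Fin k → ℕ, (SQ h n - c0 * k) ^ 2 = ∑ i, ∑ j, (mu (n + h i) ^ 2 - c0) * (mu (n + h j) ^ 2 - c0) := by
    intro h
    rw [← sum_mul_sum, ← sq]
    congr 1
    unfold SQ
    rw [sum_sub_distrib]
    simp
    ring
  have h2 : ∀ i j : Fin k, ∑ h ∈ tup k H, (mu (n + h i) ^ 2 - c0) * (mu (n + h j) ^ 2 - c0) ≤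
      (if i = j then (H : ℝ) ^ k else 0) + (H : ℝ) ^ k * (A / H) := by
    intro i j
    split_ifs with hij
    · have h3 : ∑ h ∈ tup k H, (mu (n + h i) ^ 2 - c0) * (mu (n + h j) ^ 2 - c0) ≤ (H : ℝ) ^ k := by
        rw [← card_tup, ← mul_one ((tup k H).card : ℝ), ← nsmul_eq_mul]
        refine sum_le_card_nsmul _ _ _ (fun h _ => ?_)
        refine (le_abs_self _).trans ?_
        rw [abs_mul]
        exact mul_le_one₀ (f_abs _) (abs_nonneg _) (f_abs _)
      have : 0 ≤ (H : ℝ) ^ k * (A / H) := by positivity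
      linarith
    · rw [zero_add]
      have h4 := avg_coord (H := H) j (fun h => (mu (n + h i) ^ 2 - c0) * (mu (n + h j) ^ 2 - c0))
      have h5 : ∑ h ∈ tup k H, ∑ v ∈ Icc 1 H, (mu (n + Function.update h j v i) ^ 2 - c0) *
          (mu (n + Function.update h j v j) ^ 2 - c0) ≤ (H : ℝ) ^ k * A := by
        rw [← card_tup, ← nsmul_eq_mul]
        refine sum_le_card_nsmul _ _ _ (fun h _ => ?_)
        have e2 : ∀ v ∈ Icc 1 H, (mu (n + Function.update h j v i) ^ 2 - c0) *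
          (mu (n + Function.update h j v j) ^ 2 - c0) = (mu (n + h i) ^ 2 - c0) * (mu (n + v) ^ 2 - c0) := by
          intro v _
          rw [Function.update_self, Function.update_of_ne hij]
        rw [sum_congr rfl e2, ← mul_sum]
        refine (le_abs_self _).trans ?_
        rw [abs_mul, hA]
        exact mul_le_of_le_one_left (abs_nonneg _) (f_abs _)
      rw [h4] at h5
      have h6 : (H : ℝ) ^ k * (A / H) = (H : ℝ) ^ k * A / H := by ring
      rw [h6, le_div_iff₀ hH0]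
      linarith
  simp only [e1]
  rw [sum_comm]
  calc ∑ i, ∑ h ∈ tup k H, ∑ j, (mu (n + h i) ^ 2 - c0) * (mu (n + h j) ^ 2 - c0) ≤
        ∑ i : Fin k, ∑ j : Fin k, ((if i = j then (H : ℝ) ^ k else 0) + (H : ℝ) ^ k * (A / H)) := by
          apply sum_le_sum
          intro i _
          rw [sum_comm]
          exact sum_le_sum fun j _ => h2 i j
    _ = _ := by
          simp only [sum_add_distrib, sum_ite_eq, mem_univ, if_true, sum_const, card_univ, Fintype.card_fin, nsmul_eq_mul]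
          ring

theorem few_sq {k : ℕ} {κ θ : ℝ} (hκ : 0 < κ) (hθ : 0 < θ) : ∃ H₀ : ℕ, ∀ N H : ℕ, H₀ ≤ H → H ≤ N →
    ∀ [DecidablePred fun h : Fin k → ℕ => θ * N < ∑ n ∈ Icc 1 N, (SQ h n - c0 * k) ^ 2],
    (((tup k H).filter (fun h : Fin k → ℕ => θ * N < ∑ n ∈ Icc 1 N, (SQ h n - c0 * k) ^ 2)).card : ℝ) ≤
      (k + k ^ 2 * κ) / θ * (H : ℝ) ^ k := by
  obtain ⟨H₀, h1⟩ := sqf_avg hκ
  refine ⟨H₀ + 1, fun N H hH hHN _ => ?_⟩
  have hH0 : (0 : ℝ) < H := by exact_mod_cast (by omega : 0 < H)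
  have hN0 : (0 : ℝ) < N := by exact_mod_cast (by omega : 0 < N)
  have h2 : ∑ h ∈ tup k H, ∑ n ∈ Icc 1 N, (SQ h n - c0 * k) ^ 2 ≤ (k + k ^ 2 * κ) * (H : ℝ) ^ k * N := by
    rw [sum_comm]
    calc ∑ n ∈ Icc 1 N, ∑ h ∈ tup k H, (SQ h n - c0 * k) ^ 2 ≤ ∑ n ∈ Icc 1 N, ((H : ℝ) ^ k * k +
          (H : ℝ) ^ k * k ^ 2 * (|∑ v ∈ Icc 1 H, (mu (n + v) ^ 2 - c0)| / H)) :=
          sum_le_sum fun n _ => second_moment (by omega) n
      _ = N * ((H : ℝ) ^ k * k) + (H : ℝ) ^ k * k ^ 2 / H * ∑ n ∈ Icc 1 N, |∑ v ∈ Icc 1 H, (mu (n + v) ^ 2 - c0)| := by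
          rw [sum_add_distrib, sum_const, Nat.card_Icc, Nat.add_sub_cancel, nsmul_eq_mul, mul_sum]
          congr 1
          apply sum_congr rfl
          intro n _
          ring
      _ ≤ N * ((H : ℝ) ^ k * k) + (H : ℝ) ^ k * k ^ 2 / H * (κ * H * N) := by
          have := h1 N H (by omega) hHN
          have := mul_le_mul_of_nonneg_left this (by positivity : (0 : ℝ) ≤ (H : ℝ) ^ k * k ^ 2 / H)
          linarith
      _ = _ := by
          field_simp
  have h3 : (((tup k H).filter (fun h : Fin k → ℕ => θ * N < ∑ n ∈ Icc 1 N, (SQ h n - c0 * k) ^ 2)).card : ℝ) * (θ * N) ≤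
      ∑ h ∈ tup k H, ∑ n ∈ Icc 1 N, (SQ h n - c0 * k) ^ 2 := by
    rw [← nsmul_eq_mul]
    calc _ ≤ ∑ h ∈ (tup k H).filter (fun h : Fin k → ℕ => θ * N < ∑ n ∈ Icc 1 N, (SQ h n - c0 * k) ^ 2),
          ∑ n ∈ Icc 1 N, (SQ h n - c0 * k) ^ 2 := by
            apply card_nsmul_le_sum
            intro h hh
            rw [mem_filter] at hh
            exact hh.2.le
      _ ≤ _ := by
            apply sum_le_sum_of_subset_of_nonneg (filter_subset _ _)
            intro _ _ _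
            exact sum_nonneg fun _ _ => sq_nonneg _
  have h4 := h3.trans h2
  have h5 : (((tup k H).filter (fun h : Fin k → ℕ => θ * N < ∑ n ∈ Icc 1 N, (SQ h n - c0 * k) ^ 2)).card : ℝ) * θ ≤
      (k + k ^ 2 * κ) * (H : ℝ) ^ k := by
    have : (((tup k H).filter (fun h : Fin k → ℕ => θ * N < ∑ n ∈ Icc 1 N, (SQ h n - c0 * k) ^ 2)).card : ℝ) * θ * N ≤
      (k + k ^ 2 * κ) * (H : ℝ) ^ k * N := by linarith
    exact le_of_mul_le_mul_right this hN0
  rw [div_mul_eq_mul_div, le_div_iff₀ hθ]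
  exact h5

end Pool.Agent.TH893.GS
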